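import Pool.Agent.H52.FD.Place
import Pool.Agent.H73.FD.KFin4

/-!
# Project FD: places of large local degree, for solutions in `K`

`fin_big`: let `s` be the number of the places above `p` (counted with local degrees) which divide none
of `a`, `b`, `c`.  If the local degree of such a place `v` is larger than `s / 2`, then `p = 2` modulo
`3`, the residue degree of `v` is even and `v` divides `a² + ab + b²`.
-/

open Polynomial NumberField IsDedekindDomain H9FC

namespace H52FD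

open H45KC Pool.Agent.H73.FD

section
variable {K : Type*} [Field K] [NumberField K] {p : ℕ} [Fact p.Prime]

/-- the residues at the places which divide none of `a, b, c` are stable under the anharmonic group -/
theorem S3_of_palK (hC : PalK K p) {a b c : 𝓞 K} (h : FSol K p a b c)
    (hcp : CopAt K p a b c)
    {ψ : Fin (Module.finrank ℚ K) → (𝓞 K →+* AlgebraicClosure (ZMod p))} (hψ : IsRedFam ψ) :
    S3 (fun i : {i // i ∈ ZZ ψ a b c} => -(ψ i b / ψ i a)) := by
  obtain ⟨e1, e2, e3, e4, e5, e6⟩ := sym_data hC h hcp hψ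
  exact S3_of_forms (fun i : {i // i ∈ ZZ ψ a b c} => ψ i a)
    (fun i : {i // i ∈ ZZ ψ a b c} => ψ i b) (fun i : {i // i ∈ ZZ ψ a b c} => ψ i c)
    e1 e2 e3 e4 e5 e6

/-- a place of large local degree -/
theorem main_big (hC : PalK K p) {a b c : 𝓞 K} (h : FSol K p a b c) (hcp : CopAt K p a b c)
    (s : ℕ) (hsum : s + mm K p a + mm K p b + mm K p c = Module.finrank ℚ K)
    (P : Ideal (𝓞 K)) (hP : P.IsPrime) (hpP : (p : 𝓞 K) ∈ P) (ha : a ∉ P) (hb : b ∉ P) (hc : c ∉ P)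
    (hbig : s < 2 * (P.ramificationIdx ℤ * P.inertiaDeg ℤ)) :
    p % 3 = 2 ∧ Even (P.inertiaDeg ℤ) ∧ a ^ 2 + a * b + b ^ 2 ∈ P := by
  obtain ⟨ψ, hψ⟩ := exists_redFam K p (AlgebraicClosure (ZMod p))
  have hcard := card_ZZ K p a b c h hcp hψ
  have hs : (ZZ ψ a b c).card = s := by omega
  refine big_place' (five_le hC) hψ a b c (S3_of_palK hC h hcp hψ) P hP hpP ha hb hc ?_
  rw [hs]
  exact hbig

/-- **A place of large local degree.**  -/
theorem fin_big (hC : PalK K p) (a b c : K) (ha : a ≠ 0) (hb : b ≠ 0) (hc : c ≠ 0)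
    (h : a ^ p + b ^ p + c ^ p = 0) (s : ℕ)
    (hs : s + nu K p a b c + nu K p b c a + nu K p c a b = Module.finrank ℚ K)
    (v : HeightOneSpectrum (𝓞 K)) (hv : (p : 𝓞 K) ∈ v.asIdeal)
    (e1 : v.valuation K a = v.valuation K b) (e2 : v.valuation K b = v.valuation K c)
    (hbig : s < 2 * (v.asIdeal.ramificationIdx ℤ * v.asIdeal.inertiaDeg ℤ)) :
    p % 3 = 2 ∧ Even (v.asIdeal.inertiaDeg ℤ) ∧
      v.valuation K (a ^ 2 + a * b + b ^ 2) < v.valuation K (a ^ 2) := by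
  obtain ⟨l, a', b', c', hl, ea, eb, ec, hF, hcp, -⟩ := exists_norm K p p a b c ha hb hc h
  obtain ⟨n1, n2, n3⟩ := (not_dv_iff ha hb hc h v).mpr ⟨e1, e2⟩
  rw [dv_iff hl ea eb ec hcp v hv] at n1
  rw [dv_iff hl eb ec ea hcp.rot v hv] at n2
  rw [dv_iff hl ec ea eb hcp.rot.rot v hv] at n3
  rw [nu_eq_mm hl ea eb ec hcp, nu_eq_mm hl eb ec ea hcp.rot, nu_eq_mm hl ec ea eb hcp.rot.rot] at hs
  obtain ⟨g1, g2, g3⟩ := main_big hC hF hcp s hs v.asIdeal v.isPrime hv n1 n2 n3 hbig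
  refine ⟨g1, g2, ?_⟩
  have h4 : v.valuation K ((a' ^ 2 + a' * b' + b' ^ 2 : 𝓞 K) : K) < 1 := by
    rw [HeightOneSpectrum.valuation_lt_one_iff_mem]
    exact g3
  have h5 : v.valuation K ((a' : 𝓞 K) : K) = 1 := by
    refine le_antisymm (v.valuation_le_one a') ?_
    by_contra h6
    exact n1 ((HeightOneSpectrum.valuation_lt_one_iff_mem (K := K) v a').mp (not_le.mp h6))
  have h6 : ((a' ^ 2 + a' * b' + b' ^ 2 : 𝓞 K) : K) = l ^ 2 * (a ^ 2 + a * b + b ^ 2) := by
    have h8 : ((a' ^ 2 + a' * b' + b' ^ 2 : 𝓞 K) : K)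
        = (a' : K) ^ 2 + (a' : K) * (b' : K) + (b' : K) ^ 2 := by
      simp only [map_add, map_mul, map_pow]
    rw [h8, ea, eb]
    ring
  have hvl : v.valuation K (l ^ 2) ≠ 0 := by
    rw [Valuation.ne_zero_iff]
    exact pow_ne_zero 2 hl
  have h7 : v.valuation K (l ^ 2) * v.valuation K (a ^ 2) = 1 := by
    rw [← map_mul, ← mul_pow, ← ea, map_pow, h5, one_pow]
  rw [h6, map_mul, ← h7] at h4
  exact lt_of_mul_lt_mul_left' h4

end

end H52FD
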