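import Pool.Agent.H85.FD.Fix

/-!
# Project FD: families in a field of characteristic `p` which are stable under `s ↦ 1/s`, `s ↦ 1 - s`

* `exists_perm`: two families with the same multiset of values differ by a permutation.
* `S3 T`: the family `T` is stable under `s ↦ 1/s` and `s ↦ 1 - s`.
* `S3_of_forms`, `S3_of_inv`: how `S3` is obtained.
* `orb_core`, `fam_core`: if more than half of the members of `T` are conjugate under the Frobenius
  automorphism, they are zeros of `X² - X + 1`, `p = 2` modulo `3` and their degree is even.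
* `card_root_even`, `three_dvd`, `six_dvd`: the number `N` of the members which are zeros of
  `X² - X + 1` is even, `n - N` is divisible by `3`, and by `6` if `-1` is not a member.
-/

namespace H52FD

open Finset

/-- two families with the same multiset of values differ by a permutation -/
theorem exists_perm {ι α : Type*} [Fintype ι] (f g : ι → α)
    (h : (univ : Finset ι).val.map f = (univ : Finset ι).val.map g) :
    ∃ σ : Equiv.Perm ι, ∀ v, f (σ v) = g v := by
  classical
  have hc : ∀ x : α, Fintype.card {v // g v = x} = Fintype.card {v // f v = x} := by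
    intro x
    rw [Fintype.card_subtype, Fintype.card_subtype]
    have h1 := congrArg (Multiset.count x) h
    rw [Multiset.count_map, Multiset.count_map] at h1
    have h2 : ∀ k : ι → α, (Multiset.filter (fun a => x = k a) (univ : Finset ι).val).card =
        (univ.filter (fun v => k v = x)).card := by
      intro k
      rw [Finset.card_def, Finset.filter_val]
      congr 1
      exact Multiset.filter_congr fun i _ => eq_comm
    rw [h2, h2] at h1
    exact h1.symm
  let e : ∀ x : α, {v // g v = x} ≃ {v // f v = x} := fun x => Fintype.equivOfCardEq (hc x)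
  exact ⟨Equiv.ofFiberEquiv e, fun v => Equiv.ofFiberEquiv_map e v⟩

/-- `T` is stable under `s ↦ 1/s` and `s ↦ 1 - s` -/
def S3 {ι Ω : Type*} [Field Ω] (T : ι → Ω) : Prop :=
  (∃ σ : Equiv.Perm ι, ∀ v, T (σ v) * T v = 1) ∧ ∃ τ : Equiv.Perm ι, ∀ v, T (τ v) = 1 - T v

section basic

variable {ι Ω : Type*} [Field Ω] {T : ι → Ω}

theorem S3.ne_zero (h : S3 T) (v : ι) : T v ≠ 0 := by
  obtain ⟨⟨σ, hσ⟩, -⟩ := h
  intro h0
  have := hσ v
  rw [h0, mul_zero] at this
  exact zero_ne_one this

theorem S3.ne_one (h : S3 T) (v : ι) : T v ≠ 1 := by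
  intro h1
  obtain ⟨τ, hτ⟩ := h.2
  apply h.ne_zero (τ v)
  rw [hτ, h1, sub_self]

/-- reindexing -/
theorem S3.comp {κ : Type*} (h : S3 T) (e : κ ≃ ι) : S3 (fun k => T (e k)) := by
  obtain ⟨⟨σ, hσ⟩, τ, hτ⟩ := h
  refine ⟨⟨(e.trans σ).trans e.symm, fun v => ?_⟩, (e.trans τ).trans e.symm, fun v => ?_⟩
  · simpa using hσ (e v)
  · simpa using hτ (e v)

/-- the members satisfying a property which is invariant -/
theorem S3.sub (h : S3 T) (P : Ω → Prop) (h1 : ∀ v, P (T v) ↔ P (T v)⁻¹)
    (h2 : ∀ v, P (T v) ↔ P (1 - T v)) : S3 (fun v : {v // P (T v)} => T v.1) := by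
  have h0 := h.ne_zero
  obtain ⟨⟨σ, hσ⟩, τ, hτ⟩ := h
  have hσ' : ∀ v, T (σ v) = (T v)⁻¹ := fun v => eq_inv_of_mul_eq_one_left (hσ v)
  refine ⟨⟨σ.subtypePerm (p := fun v => P (T v)) fun v => ?_, fun v => ?_⟩,
    τ.subtypePerm (p := fun v => P (T v)) fun v => ?_, fun v => ?_⟩
  · rw [hσ']
    exact (h1 v).symm
  · exact hσ v.1
  · rw [hτ]
    exact (h2 v).symm
  · exact hτ v.1

/-- stability of `T` and of `1 - 1/T` under inversion -/
theorem S3_of_inv (hI : ∃ σ : Equiv.Perm ι, ∀ v, T (σ v) * T v = 1)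
    (hI' : ∃ σ : Equiv.Perm ι, ∀ v, (1 - 1 / T (σ v)) * (1 - 1 / T v) = 1) : S3 T := by
  refine ⟨hI, ?_⟩
  obtain ⟨σ, hσ⟩ := hI
  obtain ⟨τ, hτ⟩ := hI'
  have h0 : ∀ v, T v ≠ 0 := by
    intro v hv
    have := hσ v
    rw [hv, mul_zero] at this
    exact zero_ne_one this
  refine ⟨τ, fun v => ?_⟩
  have h := hτ v
  have a := h0 v
  have b := h0 (τ v)
  field_simp at h
  linear_combination -h

end basic

section forms

private theorem Orb_roots {Ω : Type*} [Field Ω] {ι : Type*} [Fintype ι] (a b : ι → Ω)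
    (ha : ∀ i, a i ≠ 0) :
    (∏ i, (Polynomial.C (a i) * Polynomial.X - Polynomial.C (b i))).roots =
      Finset.univ.val.map fun i => b i / a i := by
  have h1 : ∀ i, Polynomial.C (a i) * Polynomial.X - Polynomial.C (b i) =
      Polynomial.C (a i) * (Polynomial.X - Polynomial.C (b i / a i)) := by
    intro i
    rw [mul_sub, ← Polynomial.C_mul, mul_div_cancel₀ _ (ha i)]
  rw [Finset.prod_congr rfl fun i _ => h1 i, Finset.prod_mul_distrib, ← map_prod,
    Polynomial.roots_C_mul _ (Finset.prod_ne_zero_iff.2 fun i _ => ha i)]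
  have h2 : ∏ i, (Polynomial.X - Polynomial.C (b i / a i)) =
      ((Finset.univ.val.map fun i => b i / a i).map fun x =>
        Polynomial.X - Polynomial.C x).prod := by
    rw [Multiset.map_map]
    rfl
  rw [h2, Polynomial.roots_multiset_prod_X_sub_C]

private theorem Orb_eq {Ω : Type*} [Field Ω] [Infinite Ω] {ι : Type*} [Fintype ι]
    (a b c d : ι → Ω) (ha : ∀ i, a i ≠ 0) (hc : ∀ i, c i ≠ 0)
    (h : ∀ T : Ω, ∏ i, (a i * T - b i) = ∏ i, (c i * T - d i)) :
    (Finset.univ.val.map fun i => b i / a i) = Finset.univ.val.map fun i => d i / c i := by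
  rw [← Orb_roots a b ha, ← Orb_roots c d hc]
  congr 1
  apply Polynomial.funext
  intro T
  rw [Polynomial.eval_prod, Polynomial.eval_prod]
  simpa using h T

/-- `S3` for `- v / u` from the symmetry of the products of linear forms -/
theorem S3_of_forms {Ω : Type*} [Field Ω] [Infinite Ω] {ι : Type*} [Fintype ι] (u v w : ι → Ω)
    (hu : ∀ i, u i ≠ 0) (hv : ∀ i, v i ≠ 0) (hw : ∀ i, w i ≠ 0)
    (huvw : ∀ i, u i + v i + w i = 0)
    (h1 : ∀ x y : Ω, ∏ i, (x * v i + y * u i) = ∏ i, (x * u i + y * v i))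
    (h2 : ∀ x y : Ω, ∏ i, (x * w i + y * v i) = ∏ i, (x * v i + y * w i)) :
    S3 (fun i => -(v i / u i)) := by
  apply S3_of_inv
  · obtain ⟨σ, hσ⟩ := exists_perm (fun i => v i / u i) (fun i => u i / v i)
      (Orb_eq u v v u hu hv (fun T => by
        have := h1 T (-1)
        calc ∏ i, (u i * T - v i) = ∏ i, (T * u i + -1 * v i) :=
              Finset.prod_congr rfl fun i _ => by ring
          _ = ∏ i, (T * v i + -1 * u i) := this.symm
          _ = _ := Finset.prod_congr rfl fun i _ => by ring))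
    refine ⟨σ, fun i => ?_⟩
    have h := hσ i
    rw [h]
    have := hu i
    have := hv i
    field_simp
  · obtain ⟨σ, hσ⟩ := exists_perm (fun i => w i / v i) (fun i => v i / w i)
      (Orb_eq v w w v hv hw (fun T => by
        have := h2 T (-1)
        calc ∏ i, (v i * T - w i) = ∏ i, (T * v i + -1 * w i) :=
              Finset.prod_congr rfl fun i _ => by ring
          _ = ∏ i, (T * w i + -1 * v i) := this.symm
          _ = _ := Finset.prod_congr rfl fun i _ => by ring))
    refine ⟨σ, fun i => ?_⟩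
    have key : ∀ j, 1 - 1 / (-(v j / u j)) = -(w j / v j) := by
      intro j
      have a := hu j
      have b := hv j
      field_simp
      linear_combination huvw j
    rw [key, key]
    have h := hσ i
    rw [h]
    have := hv i
    have := hw i
    field_simp

end forms

section orb

variable {Ω : Type*} [Field Ω] {p : ℕ} [Fact p.Prime] [CharP Ω p]

/-- the zeros of `X² - X + 1` -/
theorem root_pow {s : Ω} (hs : s ^ 2 - s + 1 = 0) : s ^ 3 = -1 ∧ s ^ 6 = 1 := by
  have h3 : s ^ 3 = -1 := by linear_combination (s + 1) * hs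
  refine ⟨h3, ?_⟩
  calc s ^ 6 = (s ^ 3) ^ 2 := by ring
    _ = 1 := by rw [h3]; norm_num

theorem root_frob (hp : 5 ≤ p) {s : Ω} (hs : s ^ 2 - s + 1 = 0) :
    (p % 3 = 1 → s ^ p = s) ∧ (p % 3 = 2 → s ^ p = s⁻¹) := by
  have hpp : p.Prime := Fact.out
  have h0 : s ≠ 0 := by
    rintro rfl
    norm_num at hs
  have h6 := (root_pow hs).2
  have hodd : p % 2 = 1 := by
    rcases hpp.eq_two_or_odd with h | h
    · omega
    · exact h
  constructor
  · intro h
    have h1 : p % 6 = 1 := by omega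
    have : s ^ p = s ^ (6 * (p / 6) + 1) := by
      congr 1
      omega
    rw [this, pow_succ, pow_mul, h6, one_pow, one_mul]
  · intro h
    have h1 : p % 6 = 5 := by omega
    have : s ^ p = s ^ (6 * (p / 6) + 5) := by
      congr 1
      omega
    rw [this, pow_add, pow_mul, h6, one_pow, one_mul]
    apply eq_inv_of_mul_eq_one_left
    rw [← h6]
    ring

theorem three_ne (hp : 5 ≤ p) : (3 : Ω) ≠ 0 := by
  have hpp : p.Prime := Fact.out
  intro h
  have h1 : ((3 : ℕ) : Ω) = 0 := by exact_mod_cast h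
  rw [CharP.cast_eq_zero_iff Ω p] at h1
  have := Nat.le_of_dvd (by norm_num) h1
  omega

/-- a root is different from its inverse -/
theorem root_ne_inv (hp : 5 ≤ p) {s : Ω} (hs : s ^ 2 - s + 1 = 0) : s⁻¹ ≠ s := by
  have h0 : s ≠ 0 := by
    rintro rfl
    norm_num at hs
  intro h
  have h1 : s * s = 1 := by
    nth_rewrite 1 [← h]
    exact inv_mul_cancel₀ h0
  have h2 : s = 2 := by linear_combination h1 - hs
  rw [h2] at hs
  apply three_ne (Ω := Ω) hp
  linear_combination hs

/-- the anharmonic group acts on a Frobenius orbit: the orbit is that of a root of `X² - X + 1` -/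
theorem orb_core (hp : 5 ≤ p) {s : Ω} (h0 : s ≠ 0) (h1 : s ≠ 1) {i j : ℕ}
    (hi : s⁻¹ = s ^ p ^ i) (hj : 1 - s = s ^ p ^ j) :
    s ^ 2 - s + 1 = 0 ∧ p % 3 = 2 ∧ ∀ f, s ^ p ^ f = s → Even f := by
  have hpp : p.Prime := Fact.out
  have e1 : 1 - s⁻¹ = (1 - s) ^ p ^ i := by
    rw [hi, sub_pow_char_pow, one_pow]
  have e2 : (1 - s)⁻¹ = (s⁻¹) ^ p ^ j := by
    rw [hj, inv_pow]
  have e3 : 1 - s⁻¹ = (1 - s)⁻¹ := by
    rw [e1, e2, hi, hj, ← pow_mul, ← pow_mul, mul_comm]
  have h1' : 1 - s ≠ 0 := sub_ne_zero.mpr (Ne.symm h1)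
  have hs : s ^ 2 - s + 1 = 0 := by
    field_simp at e3
    linear_combination -e3
  have hne := root_ne_inv hp hs
  have hmod : p % 3 = 2 := by
    have h3 : p % 3 = 0 ∨ p % 3 = 1 ∨ p % 3 = 2 := by omega
    rcases h3 with h | h | h
    · exfalso
      have : 3 ∣ p := Nat.dvd_of_mod_eq_zero h
      rcases (Nat.dvd_prime hpp).1 this with h | h <;> omega
    · exfalso
      have hf := (root_frob hp hs).1 h
      have hk : ∀ k, s ^ p ^ k = s := by
        intro k
        induction k with
        | zero => simp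
        | succ k ih => rw [pow_succ, pow_mul, ih, hf]
      rw [hk] at hi
      exact hne hi
    · exact h
  refine ⟨hs, hmod, fun f hf => ?_⟩
  have hfr := (root_frob hp hs).2 hmod
  have hk : ∀ k, (Even k → s ^ p ^ k = s) ∧ (¬ Even k → s ^ p ^ k = s⁻¹) := by
    intro k
    induction k with
    | zero => simp
    | succ k ih =>
      rw [Nat.even_add_one]
      constructor
      · intro h
        rw [pow_succ, pow_mul, ih.2 h, inv_pow, hfr, inv_inv]
      · intro h
        rw [not_not] at h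
        rw [pow_succ, pow_mul, ih.1 h, hfr]
  by_contra hne'
  rw [(hk f).2 hne'] at hf
  exact hne hf

/-- pigeonhole: more than half of the members -/
theorem exists_pair {ι : Type*} [Fintype ι] [DecidableEq ι] (σ : Equiv.Perm ι) (A : Finset ι)
    (hA : Fintype.card ι < 2 * A.card) : ∃ i ∈ A, σ i ∈ A := by
  by_contra hcon
  push Not at hcon
  have hd : Disjoint A (A.map σ.toEmbedding) := by
    rw [Finset.disjoint_left]
    intro x hx hx'
    rw [Finset.mem_map] at hx'
    obtain ⟨y, hy, rfl⟩ := hx'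
    exact hcon y hy hx
  have h1 := Finset.card_le_univ (A ∪ A.map σ.toEmbedding)
  rw [Finset.card_union_of_disjoint hd, Finset.card_map] at h1
  omega

/-- if more than half of the members of an `S3`-stable family are conjugate under Frobenius, they are
zeros of `X² - X + 1`, `p = 2` modulo `3` and they have even degree -/
theorem fam_core (hp : 5 ≤ p) {ι : Type*} [Fintype ι] {T : ι → Ω} (hT : S3 T) (A : Finset ι)
    (hA : Fintype.card ι < 2 * A.card) (hfr : ∀ i ∈ A, ∀ j ∈ A, ∃ k : ℕ, T j = T i ^ p ^ k)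
    {i : ι} (hi : i ∈ A) :
    T i ^ 2 - T i + 1 = 0 ∧ p % 3 = 2 ∧ ∀ f, T i ^ p ^ f = T i → Even f := by
  classical
  have hpp : p.Prime := Fact.out
  have h0 := hT.ne_zero
  have h1 := hT.ne_one
  obtain ⟨⟨σ, hσ⟩, τ, hτ⟩ := hT
  have hinj : ∀ m : ℕ, Function.Injective (fun x : Ω => x ^ p ^ m) := fun m => by
    have := iterateFrobenius_inj Ω p m
    intro x y hxy
    apply this
    simpa [iterateFrobenius_def] using hxy
  -- a general transfer
  have key : ∀ (ρ : Equiv.Perm ι) (g : Ω → Ω) (hρ : ∀ v, T (ρ v) = g (T v))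
      (hg : ∀ x : Ω, ∀ m : ℕ, g (x ^ p ^ m) = g x ^ p ^ m), ∃ k : ℕ, g (T i) = T i ^ p ^ k := by
    intro ρ g hρ hg
    obtain ⟨j, hj, hj'⟩ := exists_pair ρ A hA
    obtain ⟨k, hk⟩ := hfr j hj (ρ j) hj'
    obtain ⟨m, hm⟩ := hfr i hi j hj
    refine ⟨k, hinj m ?_⟩
    show g (T i) ^ p ^ m = (T i ^ p ^ k) ^ p ^ m
    rw [← hg, ← hm, ← hρ, hk, hm, ← pow_mul, ← pow_mul, mul_comm]
  obtain ⟨k, hk⟩ := key σ (fun x => x⁻¹) (fun v => eq_inv_of_mul_eq_one_left (hσ v))
    (fun x m => (inv_pow x _).symm)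
  obtain ⟨l, hl⟩ := key τ (fun x => 1 - x) hτ (fun x m => by
    show 1 - x ^ p ^ m = (1 - x) ^ p ^ m
    rw [sub_pow_char_pow, one_pow])
  exact orb_core hp (h0 i) (h1 i) hk hl

end orb

section count

variable {Ω : Type*} [Field Ω] {ι : Type*} [Fintype ι]

/-- the number of the members which are zeros of `X² - X + 1` -/
noncomputable def nroot (T : ι → Ω) : ℕ := by
  classical
  exact (univ.filter fun v => T v ^ 2 - T v + 1 = 0).card

private theorem Orb_inv_root {s : Ω} (h0 : s ≠ 0) : s ^ 2 - s + 1 = 0 ↔ s⁻¹ ^ 2 - s⁻¹ + 1 = 0 := by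
  have e : s⁻¹ ^ 2 - s⁻¹ + 1 = (s ^ 2 - s + 1) / s ^ 2 := by
    field_simp
    ring
  rw [e, div_eq_zero_iff]
  constructor
  · exact fun h => Or.inl h
  · rintro (h | h)
    · exact h
    · exact absurd (pow_eq_zero_iff (two_ne_zero)|>.1 h) h0

private theorem Orb_sub_root (s : Ω) :
    s ^ 2 - s + 1 = 0 ↔ (1 - s) ^ 2 - (1 - s) + 1 = 0 := by
  have e : (1 - s) ^ 2 - (1 - s) + 1 = s ^ 2 - s + 1 := by ring
  rw [e]

/-- `3` divides the number of the members which are not zeros of `X² - X + 1` -/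
theorem three_dvd {T : ι → Ω} (hT : S3 T) : 3 ∣ Fintype.card ι - nroot T := by
  classical
  have h0 := hT.ne_zero
  have hS := hT.sub (fun x => ¬ (x ^ 2 - x + 1 = 0))
    (fun v => not_congr (Orb_inv_root (h0 v))) (fun v => not_congr (Orb_sub_root (T v)))
  have hcard : Fintype.card {v // ¬ (T v ^ 2 - T v + 1 = 0)} = Fintype.card ι - nroot T := by
    rw [Fintype.card_subtype_compl, Fintype.card_subtype, nroot]
  rw [← hcard]
  by_contra hn
  have hS' := hS.comp (Fintype.equivFin {v // ¬ (T v ^ 2 - T v + 1 = 0)}).symm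
  have h1 := hS'.ne_one
  have h0' := hS'.ne_zero
  obtain ⟨hI, τ, hτ⟩ := hS'
  obtain ⟨v, hv⟩ := H85FD.three_inv hn _ h1 hI ⟨τ, fun v => by
    have hτv : T ((Fintype.equivFin {v // ¬ (T v ^ 2 - T v + 1 = 0)}).symm (τ v)).1 =
      1 - T ((Fintype.equivFin {v // ¬ (T v ^ 2 - T v + 1 = 0)}).symm v).1 := hτ v
    rw [hτv]
    have a := h0' v
    have b : 1 - T ((Fintype.equivFin {v // ¬ (T v ^ 2 - T v + 1 = 0)}).symm v).1 ≠ 0 :=
      sub_ne_zero.mpr (Ne.symm (h1 v))
    field_simp
    ring⟩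
  exact ((Fintype.equivFin {v // ¬ (T v ^ 2 - T v + 1 = 0)}).symm v).2 hv

/-- the number of the zeros of `X² - X + 1` is even -/
theorem nroot_even {T : ι → Ω} (hT : S3 T) (h3 : (3 : Ω) ≠ 0) : Even (nroot T) := by
  classical
  have h0 := hT.ne_zero
  have hS := hT.sub (fun x => x ^ 2 - x + 1 = 0)
    (fun v => Orb_inv_root (h0 v)) (fun v => Orb_sub_root (T v))
  have hcard : Fintype.card {v // T v ^ 2 - T v + 1 = 0} = nroot T := by
    rw [Fintype.card_subtype, nroot]
  rw [← hcard]
  by_contra hn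
  rw [Nat.not_even_iff_odd] at hn
  have hS' := hS.comp (Fintype.equivFin {v // T v ^ 2 - T v + 1 = 0}).symm
  obtain ⟨v, hv⟩ := H85FD.odd_inv hn _ hS'.ne_one hS'.1
  have h := ((Fintype.equivFin {v // T v ^ 2 - T v + 1 = 0}).symm v).2
  rw [hv] at h
  apply h3
  linear_combination h

/-- if `-1` is not a member, `6` divides the number of the members which are not zeros of
`X² - X + 1` -/
theorem six_dvd {T : ι → Ω} (hT : S3 T) (hm : ∀ v, T v ≠ -1) :
    6 ∣ Fintype.card ι - nroot T := by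
  classical
  have h0 := hT.ne_zero
  have hS := hT.sub (fun x => ¬ (x ^ 2 - x + 1 = 0))
    (fun v => not_congr (Orb_inv_root (h0 v))) (fun v => not_congr (Orb_sub_root (T v)))
  have hcard : Fintype.card {v // ¬ (T v ^ 2 - T v + 1 = 0)} = Fintype.card ι - nroot T := by
    rw [Fintype.card_subtype_compl, Fintype.card_subtype, nroot]
  have h2 : Even (Fintype.card ι - nroot T) := by
    rw [← hcard]
    by_contra hn
    rw [Nat.not_even_iff_odd] at hn
    have hS' := hS.comp (Fintype.equivFin {v // ¬ (T v ^ 2 - T v + 1 = 0)}).symm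
    obtain ⟨v, hv⟩ := H85FD.odd_inv hn _ hS'.ne_one hS'.1
    exact hm _ hv
  have h3 := three_dvd hT
  have h4 : 2 ∣ Fintype.card ι - nroot T := even_iff_two_dvd.1 h2
  omega

end count

end H52FD
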