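import Pool.Agent.H9.FC.LocDeg
import Pool.Agent.H52.FD.Orb

/-!
# Project FD: the places of a number field above `p` and a reduction family

* `frob_conj`: two homomorphisms `𝓞 K → Ω` with the same kernel are conjugate under Frobenius.
* `pow_inertia`: `ψ x ^ (p ^ f) = ψ x`, `f` the inertia degree of the kernel of `ψ`.
* `card_ker`: the number of the members of a reduction family with kernel `P` is `e f`.
* `big_place`: if the values `- ψ_i b / ψ_i a` at the places which divide none of `a, b, c` are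
  stable under the anharmonic group and `P` is such a place with `2 e f` larger than their number,
  then `p = 2` modulo `3` and the residue degree of `P` is even.
-/

namespace H52FD

open NumberField H9FC Finset

theorem frob_conj_field {k Ω : Type*} [Field k] [Finite k] [Field Ω] (p : ℕ) [Fact p.Prime]
    [CharP k p] [CharP Ω p] (f g : k →+* Ω) : ∃ n : ℕ, ∀ x, g x = f x ^ p ^ n := by
  letI := ZMod.algebra k p
  letI := ZMod.algebra Ω p
  have hf : f.comp (algebraMap (ZMod p) k) = algebraMap (ZMod p) Ω := Subsingleton.elim _ _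
  have hg : g.comp (algebraMap (ZMod p) k) = algebraMap (ZMod p) Ω := Subsingleton.elim _ _
  let F : k →ₐ[ZMod p] Ω := { f with commutes' := fun r => congrArg (fun h => h r) hf }
  let G : k →ₐ[ZMod p] Ω := { g with commutes' := fun r => congrArg (fun h => h r) hg }
  have : Module.Finite (ZMod p) k := Module.Finite.of_finite
  have hinj : Function.Injective
      (fun n : Fin (Module.finrank (ZMod p) k) => F.comp (FiniteField.frobeniusAlgHom (ZMod p) k ^ n.1)) := by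
    intro m n hmn
    apply (FiniteField.bijective_frobeniusAlgHom_pow (ZMod p) k).1
    apply AlgHom.ext
    intro x
    have h1 := DFunLike.congr_fun hmn x
    exact F.toRingHom.injective h1
  have hbij := hinj.bijective_of_nat_card_le (by
    rw [Nat.card_fin]
    exact card_algHom_le_finrank (ZMod p) k Ω)
  obtain ⟨n, hn⟩ := hbij.2 G
  refine ⟨n.1, fun x => ?_⟩
  have h1 := DFunLike.congr_fun hn x
  have h2 : ∀ m : ℕ, (FiniteField.frobeniusAlgHom (ZMod p) k ^ m) x = x ^ p ^ m := by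
    intro m
    induction m with
    | zero => simp
    | succ m ih =>
      rw [pow_succ', AlgHom.mul_apply, ih, FiniteField.coe_frobeniusAlgHom, ZMod.card]
      show (x ^ p ^ m) ^ p = x ^ p ^ (m + 1)
      rw [← pow_mul, pow_succ]
  have h3 : F ((FiniteField.frobeniusAlgHom (ZMod p) k ^ n.1) x) = G x := h1
  rw [h2, map_pow] at h3
  exact h3.symm

section

variable {K : Type*} [Field K] [NumberField K] {p : ℕ} [Fact p.Prime] {Ω : Type*} [Field Ω]
  [CharP Ω p]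

omit [NumberField K] in
theorem p_mem_ker (ψ : 𝓞 K →+* Ω) : (p : 𝓞 K) ∈ RingHom.ker ψ := by
  rw [RingHom.mem_ker, map_natCast, CharP.cast_eq_zero]

/-- the data of a prime above `p` -/
theorem prime_data (P : Ideal (𝓞 K)) (hP : P.IsPrime) (hpP : (p : 𝓞 K) ∈ P) :
    P ≠ ⊥ ∧ P.IsMaximal ∧ Finite (𝓞 K ⧸ P) ∧ CharP (𝓞 K ⧸ P) p ∧
      P.LiesOver (Ideal.span {(p : ℤ)}) ∧ p ^ P.inertiaDeg ℤ = Nat.card (𝓞 K ⧸ P) := by
  have hpp : p.Prime := Fact.out
  have hne : P ≠ ⊥ := by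
    rintro rfl
    rw [Ideal.mem_bot, Nat.cast_eq_zero] at hpP
    exact hpp.ne_zero hpP
  have hmax : P.IsMaximal := hP.isMaximal hne
  have hfin : Finite (𝓞 K ⧸ P) := Ideal.finiteQuotientOfFreeOfNeBot P hne
  have hlies : P.LiesOver (Ideal.span {(p : ℤ)}) := by
    rw [Ideal.liesOver_iff]
    refine Ideal.IsMaximal.eq_of_le (Int.ideal_span_isMaximal_of_prime p) ?_ ?_
    · intro h0
      have h1 : (1 : ℤ) ∈ P.under ℤ := by rw [h0]; trivial
      rw [Ideal.under, Ideal.mem_comap, map_one] at h1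
      exact hP.ne_top ((Ideal.eq_top_iff_one P).mpr h1)
    · rw [Ideal.span_singleton_le_iff_mem, Ideal.under, Ideal.mem_comap]
      simpa using hpP
  have hcard : p ^ P.inertiaDeg ℤ = Nat.card (𝓞 K ⧸ P) := by
    rw [Ideal.pow_inertiaDeg]
    rfl
  have hchar : CharP (𝓞 K ⧸ P) p := by
    letI : Field (𝓞 K ⧸ P) := Ideal.Quotient.field P
    have h1 : ((p : ℕ) : 𝓞 K ⧸ P) = 0 := by
      have h2 := Ideal.Quotient.eq_zero_iff_mem.mpr hpP
      simpa using h2
    exact (CharP.charP_iff_prime_eq_zero (Fact.out : p.Prime)).mpr h1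
  exact ⟨hne, hmax, hfin, hchar, hlies, hcard⟩

/-- two homomorphisms with the same kernel are conjugate -/
theorem frob_conj (ψ φ : 𝓞 K →+* Ω) (h : RingHom.ker ψ = RingHom.ker φ) :
    ∃ n : ℕ, ∀ x, φ x = ψ x ^ p ^ n := by
  obtain ⟨hne, hmax, hfin, hchar, -, -⟩ :=
    prime_data (p := p) (RingHom.ker ψ) (RingHom.ker_isPrime ψ) (p_mem_ker ψ)
  letI : Field (𝓞 K ⧸ RingHom.ker ψ) := Ideal.Quotient.field _
  let f : (𝓞 K ⧸ RingHom.ker ψ) →+* Ω := Ideal.Quotient.lift _ ψ fun a ha => ha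
  let g : (𝓞 K ⧸ RingHom.ker ψ) →+* Ω := Ideal.Quotient.lift _ φ fun a ha => by
    rw [h] at ha
    exact ha
  obtain ⟨n, hn⟩ := frob_conj_field p f g
  exact ⟨n, fun x => hn (Ideal.Quotient.mk _ x)⟩

theorem pow_inertia (ψ : 𝓞 K →+* Ω) (x : 𝓞 K) :
    ψ x ^ p ^ (RingHom.ker ψ).inertiaDeg ℤ = ψ x := by
  obtain ⟨hne, hmax, hfin, hchar, -, hcard⟩ :=
    prime_data (p := p) (RingHom.ker ψ) (RingHom.ker_isPrime ψ) (p_mem_ker ψ)
  letI : Field (𝓞 K ⧸ RingHom.ker ψ) := Ideal.Quotient.field _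
  letI : Fintype (𝓞 K ⧸ RingHom.ker ψ) := Fintype.ofFinite _
  have h1 : (Ideal.Quotient.mk (RingHom.ker ψ) x) ^ p ^ (RingHom.ker ψ).inertiaDeg ℤ =
      Ideal.Quotient.mk (RingHom.ker ψ) x := by
    rw [hcard, Nat.card_eq_fintype_card]
    exact FiniteField.pow_card _
  rw [← map_pow, Ideal.Quotient.eq] at h1
  rw [← map_pow, ← sub_eq_zero, ← map_sub]
  exact h1

/-- the number of the members of a reduction family with kernel `P` -/
theorem card_ker {ψ : Fin (Module.finrank ℚ K) → (𝓞 K →+* Ω)} (hψ : IsRedFam ψ)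
    (P : Ideal (𝓞 K)) (hP : P.IsPrime) (hpP : (p : 𝓞 K) ∈ P) :
    Nat.card {i // RingHom.ker (ψ i) = P} = P.ramificationIdx ℤ * P.inertiaDeg ℤ := by
  classical
  have hpp : p.Prime := Fact.out
  obtain ⟨hne, hmax, -, -, hlies, -⟩ := prime_data (p := p) P hP hpP
  -- an element of `P` in no other kernel and in no other prime above `p`
  have hp0 : (Ideal.span {(p : ℤ)}) ≠ 0 := by
    show Ideal.span {(p : ℤ)} ≠ ⊥
    rw [Ne, Ideal.span_singleton_eq_bot]
    exact_mod_cast hpp.ne_zero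
  have hpmax : (Ideal.span {(p : ℤ)}).IsMaximal := Int.ideal_span_isMaximal_of_prime p
  set T : Finset (Ideal (𝓞 K)) := ((Ideal.span {(p : ℤ)}).primesOver (𝓞 K)).toFinset with hT
  have hTmem : ∀ Q, Q ∈ T ↔ Q ∈ (Ideal.span {(p : ℤ)}).primesOver (𝓞 K) := fun Q => Set.mem_toFinset
  have hPT : P ∈ T := (hTmem P).2 ⟨hP, hlies⟩
  have hTmax : ∀ Q ∈ T, Q.IsMaximal := by
    intro Q hQ
    have h1 := (hTmem Q).1 hQ
    have h2 : Q.IsPrime := h1.1
    have h3 : Q.LiesOver (Ideal.span {(p : ℤ)}) := h1.2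
    exact Ideal.IsMaximal.of_liesOver_isMaximal Q (Ideal.span {(p : ℤ)})
  obtain ⟨y, hyP, hy⟩ : ∃ y ∈ P, ∀ Q ∈ T, Q ≠ P → y ∉ Q := by
    by_contra hcon
    push Not at hcon
    have hsub : (P : Set (𝓞 K)) ⊆ ⋃ Q ∈ ((T.erase P : Finset (Ideal (𝓞 K))) : Set (Ideal (𝓞 K))),
        ((Q : Ideal (𝓞 K)) : Set (𝓞 K)) := by
      intro y hy
      obtain ⟨Q, hQ, hQP, hyQ⟩ := hcon y hy
      rw [Set.mem_iUnion₂]
      exact ⟨Q, by
        rw [Finset.mem_coe, Finset.mem_erase]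
        exact ⟨hQP, hQ⟩, hyQ⟩
    rcases (T.erase P).eq_empty_or_nonempty with he | ⟨Q0, hQ0⟩
    · rw [he] at hsub
      simp at hsub
      exact absurd P.zero_mem (by
        rw [← SetLike.mem_coe, hsub]
        exact Set.notMem_empty _)
    · rw [Ideal.subset_union_prime Q0 Q0 (fun i hi _ _ => (hTmax i (Finset.mem_of_mem_erase hi)).isPrime)] at hsub
      obtain ⟨Q, hQ, hPQ⟩ := hsub
      have h1 := hmax.eq_of_le (hTmax Q (Finset.mem_of_mem_erase hQ)).ne_top hPQ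
      exact (Finset.ne_of_mem_erase hQ) h1.symm
  have hker : ∀ i, RingHom.ker (ψ i) ∈ T := by
    intro i
    rw [hTmem]
    exact ⟨RingHom.ker_isPrime _, (prime_data (p := p) _ (RingHom.ker_isPrime _) (p_mem_ker _)).2.2.2.2.1⟩
  have hiff : ∀ i, ψ i y = 0 ↔ RingHom.ker (ψ i) = P := by
    intro i
    constructor
    · intro h
      by_contra hne
      exact hy _ (hker i) hne h
    · intro h
      rw [← RingHom.mem_ker, h]
      exact hyP
  have h1 := card_zero_eq_mm p hψ y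
  have h2 : mm K p y = P.ramificationIdx ℤ * P.inertiaDeg ℤ := by
    unfold mm
    have hset : {Q : Ideal (𝓞 K) | Q ∈ Ideal.primesOver (Ideal.span {(p : ℤ)}) (𝓞 K) ∧ y ∈ Q} = {P} := by
      ext Q
      rw [Set.mem_setOf_eq, Set.mem_singleton_iff]
      constructor
      · rintro ⟨hQ, hyQ⟩
        by_contra hne
        exact hy Q ((hTmem Q).2 hQ) hne hyQ
      · rintro rfl
        exact ⟨(hTmem Q).1 hPT, hyP⟩
    rw [hset, finsum_mem_singleton]
  rw [← h2, ← h1]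
  exact Nat.card_congr (Equiv.subtypeEquivRight fun i => (hiff i).symm)

/-- A place of large local degree -/
theorem big_place' (hp : 5 ≤ p) {ψ : Fin (Module.finrank ℚ K) → (𝓞 K →+* Ω)} (hψ : IsRedFam ψ)
    (a b c : 𝓞 K) (hS : S3 (fun i : {i // i ∈ ZZ ψ a b c} => -(ψ i b / ψ i a)))
    (P : Ideal (𝓞 K)) (hP : P.IsPrime) (hpP : (p : 𝓞 K) ∈ P) (ha : a ∉ P) (hb : b ∉ P) (hc : c ∉ P)
    (hbig : (ZZ ψ a b c).card < 2 * (P.ramificationIdx ℤ * P.inertiaDeg ℤ)) :
    p % 3 = 2 ∧ Even (P.inertiaDeg ℤ) ∧ a ^ 2 + a * b + b ^ 2 ∈ P := by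
  classical
  obtain ⟨i0, hi0⟩ := exists_redFam_ker hψ p P hP hpP
  have hZ : ∀ i, RingHom.ker (ψ i) = P → i ∈ ZZ ψ a b c := by
    intro i hi
    rw [mem_ZZ]
    refine ⟨fun h => ha ?_, fun h => hb ?_, fun h => hc ?_⟩ <;>
    · rw [← hi]
      exact h
  set A : Finset {i // i ∈ ZZ ψ a b c} := univ.filter (fun i => RingHom.ker (ψ i.1) = P) with hA
  have hAcard : A.card = P.ramificationIdx ℤ * P.inertiaDeg ℤ := by
    rw [← card_ker hψ P hP hpP, Nat.card_eq_fintype_card, Fintype.card_subtype]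
    refine Finset.card_bij (fun i _ => i.1) ?_ ?_ ?_
    · intro i hi
      rw [hA, Finset.mem_filter] at hi
      rw [Finset.mem_filter]
      exact ⟨Finset.mem_univ _, hi.2⟩
    · intro i _ j _ h
      exact Subtype.ext h
    · intro i hi
      rw [Finset.mem_filter] at hi
      refine ⟨⟨i, hZ i hi.2⟩, ?_, rfl⟩
      rw [hA, Finset.mem_filter]
      exact ⟨Finset.mem_univ _, hi.2⟩
  have hcard : Fintype.card {i // i ∈ ZZ ψ a b c} < 2 * A.card := by
    rw [hAcard, Fintype.card_coe]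
    exact hbig
  have hfr : ∀ i ∈ A, ∀ j ∈ A, ∃ k : ℕ, -(ψ j.1 b / ψ j.1 a) = (-(ψ i.1 b / ψ i.1 a)) ^ p ^ k := by
    intro i hi j hj
    rw [hA, Finset.mem_filter] at hi hj
    obtain ⟨k, hk⟩ := frob_conj (p := p) (ψ i.1) (ψ j.1) (hi.2.trans hj.2.symm)
    refine ⟨k, ?_⟩
    have hodd : Odd (p ^ k) := by
      apply Odd.pow
      rcases (Fact.out : p.Prime).eq_two_or_odd' with h | h
      · omega
      · exact h
    rw [hodd.neg_pow, div_pow, hk, hk]
  have hi0A : (⟨i0, hZ i0 hi0⟩ : {i // i ∈ ZZ ψ a b c}) ∈ A := by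
    rw [hA, Finset.mem_filter]
    exact ⟨Finset.mem_univ _, hi0⟩
  obtain ⟨h1, h2, h3⟩ := fam_core hp hS A hcard hfr hi0A
  refine ⟨h2, h3 _ ?_, ?_⟩
  · have hodd : Odd (p ^ P.inertiaDeg ℤ) := by
      apply Odd.pow
      rcases (Fact.out : p.Prime).eq_two_or_odd' with h | h
      · omega
      · exact h
    show (-(ψ i0 b / ψ i0 a)) ^ p ^ P.inertiaDeg ℤ = -(ψ i0 b / ψ i0 a)
    rw [hodd.neg_pow, div_pow, ← hi0, pow_inertia, pow_inertia]
  · have ha0 : ψ i0 a ≠ 0 := ((mem_ZZ ψ a b c i0).1 (hZ i0 hi0)).1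
    have h4 : (-(ψ i0 b / ψ i0 a)) ^ 2 - -(ψ i0 b / ψ i0 a) + 1 = 0 := h1
    rw [← hi0, RingHom.mem_ker, map_add, map_add, map_mul, map_pow, map_pow]
    field_simp at h4
    linear_combination h4

/-- A place of large local degree -/
theorem big_place (hp : 5 ≤ p) {ψ : Fin (Module.finrank ℚ K) → (𝓞 K →+* Ω)} (hψ : IsRedFam ψ)
    (a b c : 𝓞 K) (hS : S3 (fun i : {i // i ∈ ZZ ψ a b c} => -(ψ i b / ψ i a)))
    (P : Ideal (𝓞 K)) (hP : P.IsPrime) (hpP : (p : 𝓞 K) ∈ P) (ha : a ∉ P) (hb : b ∉ P) (hc : c ∉ P)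
    (hbig : (ZZ ψ a b c).card < 2 * (P.ramificationIdx ℤ * P.inertiaDeg ℤ)) :
    p % 3 = 2 ∧ Even (P.inertiaDeg ℤ) :=
  have h := big_place' hp hψ a b c hS P hP hpP ha hb hc hbig
  ⟨h.1, h.2.1⟩

end

end H52FD
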